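import Pool.Agent.H37.CPX.Targets

/-!
# CPU: cutting planes refutations are dags of triangles (helper64, board cpx_modules)
-/

namespace Pool.Agent.H64.CPX

open Finset Pool.Agent.H37.CPX
open Pool.Agent.H1.LP (Clause)
open Pool.Agent.H37.CP (Refutable Line Holds)

/-- the right side of a line minus the `x`-part of its left side -/
noncomputable def lu {X : Type} {n : ℕ} (side : Fin n → Bool) (g : Fin n → X → Bool)
    (L : Line n) (x : X) : ℝ :=
  L.2 - ∑ i, if side i = true then L.1 i * (if g i x = true then 1 else 0) else 0

/-- the `y`-part of the left side of a line -/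
noncomputable def lw {Y : Type} {n : ℕ} (side : Fin n → Bool) (f : Fin n → Y → Bool)
    (L : Line n) (y : Y) : ℝ :=
  ∑ i, if side i = true then 0 else L.1 i * (if f i y = true then 1 else 0)

lemma holds_asg {Y X : Type} {n : ℕ} (side : Fin n → Bool) (f : Fin n → Y → Bool)
    (g : Fin n → X → Bool) (L : Line n) (y : Y) (x : X) :
    Holds L (asg side f g y x) ↔ lu side g L x ≤ lw side f L y := by
  unfold Holds lu lw
  have h1 : ∑ i, L.1 i * (if asg side f g y x i = true then (1 : ℝ) else 0) =
      (∑ i, if side i = true then L.1 i * (if g i x = true then (1 : ℝ) else 0) else 0) +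
        ∑ i, if side i = true then (0 : ℝ) else L.1 i * (if f i y = true then 1 else 0) := by
    rw [← Finset.sum_add_distrib]
    apply Finset.sum_congr rfl
    intro i _
    unfold asg
    by_cases h : side i = true
    · simp [h]
    · simp [h]
  rw [h1]
  constructor <;> intro h <;> linarith

lemma not_holds_asg {Y X : Type} {n : ℕ} (side : Fin n → Bool) (f : Fin n → Y → Bool)
    (g : Fin n → X → Bool) (L : Line n) (y : Y) (x : X) :
    ¬ Holds L (asg side f g y x) ↔ lw side f L y < lu side g L x := by
  rw [holds_asg, not_le]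

theorem pf_CPU : S_CPU := by
  intro Y X n m R phi side f g Vi hV s d hR
  obtain ⟨line, dp, -, hst, j, hj⟩ := hR
  refine ⟨fun v => lu side g (line v), fun v => lw side f (line v), dp, fun v => ?_, j,
    fun x y => (not_holds_asg side f g (line j) y x).1 (hj _)⟩
  rcases hst v with ⟨i, hi⟩ | ⟨j1, j2, h1, h2, h3⟩
  · left
    obtain ⟨e, he⟩ := hV i
    exact ⟨e, fun x y h => he y x fun hs => (not_holds_asg side f g (line v) y x).2 h (hi _ hs)⟩
  · right
    refine ⟨j1, j2, h1, h2, fun x y h => ?_⟩
    by_contra hcon
    rw [not_or, not_lt, not_lt, ← holds_asg side f g, ← holds_asg side f g] at hcon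
    exact (not_holds_asg side f g (line v) y x).2 h (h3 _ hcon.1 hcon.2)

end Pool.Agent.H64.CPX
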